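import Pool.Agent.Q80.AC.Stm2

open MeasureTheory Topology Filter
open scoped ENNReal NNReal ComplexConjugate

noncomputable section

namespace Q93.AC.RU

open Pool.Agent.Q80.AC

theorem min_le_sqrt (a b : ℝ) (ha : 0 ≤ a) (hb : 0 ≤ b) :
    (a + b - |b - a|) / 2 ≤ √a * √b := by
  have h1 : √a * √a = a := Real.mul_self_sqrt ha
  have h2 : √b * √b = b := Real.mul_self_sqrt hb
  have h3 := Real.sqrt_nonneg a
  have h4 := Real.sqrt_nonneg b
  rcases le_total a b with h | h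
  · rw [abs_of_nonneg (by linarith)]
    have h5 : √a ≤ √b := Real.sqrt_le_sqrt h
    nlinarith
  · rw [abs_of_nonpos (by linarith)]
    have h5 : √b ≤ √a := Real.sqrt_le_sqrt h
    nlinarith

theorem t_RU : S_RU := by
  intro H _ _ _ _ _ _ _ _ m _ hR K hK ε hε
  obtain ⟨f, hfi, hf0, hf1, hfK⟩ := hR K hK ε hε
  set g : H → ℂ := fun x => ((√(f x) : ℝ) : ℂ) with hg
  have hgm : AEStronglyMeasurable g m :=
    (Complex.continuous_ofReal.comp Real.continuous_sqrt).comp_aestronglyMeasurable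
      hfi.aestronglyMeasurable
  have hnorm : ∀ x, ‖g x‖ ^ 2 = f x := by
    intro x
    simp only [hg, Complex.norm_real, Real.norm_eq_abs, sq_abs]
    exact Real.sq_sqrt (hf0 x)
  have hgL : MemLp g 2 m := by
    rw [memLp_two_iff_integrable_sq_norm hgm]
    simpa only [hnorm] using hfi
  set ξ : Lp ℂ 2 m := hgL.toLp g with hξ
  have hξg : (ξ : H → ℂ) =ᵐ[m] g := hgL.coeFn_toLp
  have hmp : ∀ s : H, MeasurePreserving (fun x : H => s⁻¹ * x) m m := fun s =>
    measurePreserving_mul_left m s⁻¹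
  have hlam : ∀ s : H, (lam m s ξ : H → ℂ) =ᵐ[m] fun x => g (s⁻¹ * x) := by
    intro s
    have h1 : (lam m s ξ : H → ℂ) =ᵐ[m] (ξ : H → ℂ) ∘ (fun x => s⁻¹ * x) :=
      Lp.coeFn_compMeasurePreserving ξ (hmp s)
    exact h1.trans ((hmp s).quasiMeasurePreserving.ae_eq_comp hξg)
  have hform : ∀ s : H, (inner ℂ ξ (lam m s ξ) : ℂ) =
      ((∫ x, √(f x) * √(f (s⁻¹ * x)) ∂m : ℝ) : ℂ) := by
    intro s
    rw [L2.inner_def, ← integral_complex_ofReal]
    apply integral_congr_ae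
    filter_upwards [hξg, hlam s] with x h1 h2
    rw [h1, h2]
    simp only [hg]
    rw [RCLike.inner_apply, Complex.conj_ofReal]
    push_cast
    ring
  have hself : (inner ℂ ξ ξ : ℂ) = 1 := by
    rw [L2.inner_def]
    have h1 : (1 : ℂ) = ((∫ x, f x ∂m : ℝ) : ℂ) := by rw [hf1]; simp
    rw [h1, ← integral_complex_ofReal]
    apply integral_congr_ae
    filter_upwards [hξg] with x h1
    rw [h1]
    simp only [hg]
    rw [RCLike.inner_apply, Complex.conj_ofReal, ← Complex.ofReal_mul, Real.mul_self_sqrt (hf0 x)]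
  have hn : ‖ξ‖ = 1 := by
    have h1 := inner_self_eq_norm_sq_to_K (𝕜 := ℂ) ξ
    rw [hself] at h1
    have h2 : (1 : ℝ) = ‖ξ‖ ^ 2 := by
      have h4 := congrArg Complex.re h1
      rw [Complex.one_re] at h4
      rw [h4]
      norm_cast
    have h3 := norm_nonneg ξ
    nlinarith
  refine ⟨ξ, hn, fun s => ?_, fun s hs => ?_⟩
  · rw [hform s, Complex.ofReal_im, Complex.ofReal_re]
    exact ⟨rfl, integral_nonneg fun x => mul_nonneg (Real.sqrt_nonneg _) (Real.sqrt_nonneg _)⟩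
  · rw [hform s, Complex.ofReal_re]
    have hfs : Integrable (fun x => f (s⁻¹ * x)) m := (hmp s).integrable_comp_of_integrable hfi
    have hfs1 : ∫ x, f (s⁻¹ * x) ∂m = 1 := by
      rw [integral_mul_left_eq_self f s⁻¹]; exact hf1
    have hi1 : Integrable (fun x => (f x + f (s⁻¹ * x) - |f (s⁻¹ * x) - f x|) / 2) m :=
      ((hfi.add hfs).sub (hfs.sub hfi).abs).div_const 2
    have hi2 : Integrable (fun x => √(f x) * √(f (s⁻¹ * x))) m := by
      refine Integrable.mono' ((hfi.add hfs)) ?_ (ae_of_all _ fun x => ?_)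
      · exact (Real.continuous_sqrt.comp_aestronglyMeasurable hfi.aestronglyMeasurable).mul
          (Real.continuous_sqrt.comp_aestronglyMeasurable hfs.aestronglyMeasurable)
      · have h1 := Real.mul_self_sqrt (hf0 x)
        have h2 := Real.mul_self_sqrt (hf0 (s⁻¹ * x))
        have h3 := Real.sqrt_nonneg (f x)
        have h4 := Real.sqrt_nonneg (f (s⁻¹ * x))
        rw [Real.norm_eq_abs, abs_of_nonneg (mul_nonneg h3 h4)]
        simp only [Pi.add_apply]
        nlinarith [sq_nonneg (√(f x) - √(f (s⁻¹ * x)))]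
    have h5 : ∫ x, (f x + f (s⁻¹ * x) - |f (s⁻¹ * x) - f x|) / 2 ∂m ≤
        ∫ x, √(f x) * √(f (s⁻¹ * x)) ∂m :=
      integral_mono hi1 hi2 fun x => min_le_sqrt _ _ (hf0 _) (hf0 _)
    have h6 : ∫ x, (f x + f (s⁻¹ * x) - |f (s⁻¹ * x) - f x|) / 2 ∂m =
        (∫ x, f x ∂m + ∫ x, f (s⁻¹ * x) ∂m - ∫ x, |f (s⁻¹ * x) - f x| ∂m) / 2 := by
      rw [integral_div]
      congr 1
      have e1 : ∫ x, (f x + f (s⁻¹ * x) - |f (s⁻¹ * x) - f x|) ∂m =
          ∫ x, (f x + f (s⁻¹ * x)) ∂m - ∫ x, |f (s⁻¹ * x) - f x| ∂m :=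
        integral_sub (hfi.add hfs) (hfs.sub hfi).abs
      rw [e1, integral_add hfi hfs]
    rw [h6, hf1, hfs1] at h5
    have h7 := hfK s hs
    linarith

end Q93.AC.RU
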