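import Mathlib

/-! Planar metric domains, the ALLC condition and relative separation. A metric space `X` is
given as a dense subset of a complete metric space `Y`, which is then its completion; the metric
boundary of `X` is `Xᶜ`. -/

namespace Q93.AC

open Set

/-- `X` is homeomorphic to a domain (non-empty connected open subset) of the sphere `𝕊²`. -/
def PlanarDomain {Y : Type*} [TopologicalSpace Y] (X : Set Y) : Prop :=
  ∃ U : Set (Metric.sphere (0 : EuclideanSpace ℝ (Fin 3)) 1),
    IsOpen U ∧ IsConnected U ∧ Nonempty (X ≃ₜ U)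

/-- The metric space `X` is `lam`-annularly linearly locally connected. -/
def ALLC {Y : Type*} [MetricSpace Y] (lam : ℝ) (X : Set Y) : Prop :=
  ∀ a ∈ X, ∀ r R : ℝ, 0 < r → r < R → ∀ p ∈ X, ∀ q ∈ X,
    r ≤ dist a p → dist a p ≤ R → r ≤ dist a q → dist a q ≤ R →
    ∃ K ⊆ X, IsCompact K ∧ IsConnected K ∧ p ∈ K ∧ q ∈ K ∧
      ∀ z ∈ K, r / lam ≤ dist a z ∧ dist a z ≤ lam * R

/-- `E` is a non-trivial (more than one point) connected component of the metric boundary
`Xᶜ` of `X`. -/
def NontrivialComponent {Y : Type*} [TopologicalSpace Y] (X E : Set Y) : Prop :=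
  E.Nontrivial ∧ ∃ x ∈ Xᶜ, E = connectedComponentIn Xᶜ x

/-- The relative distance `dist(E,F) / min{diam E, diam F}`. -/
noncomputable def relDist {Y : Type*} [MetricSpace Y] (E F : Set Y) : ℝ :=
  sInf {t | ∃ x ∈ E, ∃ y ∈ F, t = dist x y} / min (Metric.diam E) (Metric.diam F)

end Q93.AC
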