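import Mathlib

/-! The funnel `|x| < w + t⁺` with the metric which collapses the lower strip: connectedness of
annuli. -/

namespace Q93.AC

open Set

/-- the distance function (before truncation) -/
noncomputable def Dm (w : ℝ) (p q : ℝ × ℝ) : ℝ :=
  max (max |p.1 - q.1| |max p.2 0 - max q.2 0|) (min w |p.2 - q.2|)

/-- the open funnel -/
def Xe (w : ℝ) : Set (ℝ × ℝ) := {z | |z.1| < w + max z.2 0}

theorem Dm_le {w c : ℝ} {p q : ℝ × ℝ} :
    Dm w p q ≤ c ↔ |p.1 - q.1| ≤ c ∧ |max p.2 0 - max q.2 0| ≤ c ∧ min w |p.2 - q.2| ≤ c := by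
  unfold Dm
  rw [max_le_iff, max_le_iff, and_assoc]

theorem le_Dm {w c : ℝ} {p q : ℝ × ℝ} :
    c ≤ Dm w p q ↔ c ≤ |p.1 - q.1| ∨ c ≤ |max p.2 0 - max q.2 0| ∨ c ≤ min w |p.2 - q.2| := by
  unfold Dm
  rw [le_max_iff, le_max_iff, or_assoc]

/-- connected by a compact connected subset -/
def Conn (S : Set (ℝ × ℝ)) (p q : ℝ × ℝ) : Prop :=
  ∃ T ⊆ S, IsCompact T ∧ IsConnected T ∧ p ∈ T ∧ q ∈ T

theorem Conn.trans {S : Set (ℝ × ℝ)} {p q z : ℝ × ℝ} (h1 : Conn S p q) (h2 : Conn S q z) :
    Conn S p z := by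
  obtain ⟨T, hT, hTc, hTn, hp, hq⟩ := h1
  obtain ⟨T', hT', hTc', hTn', hq', hz⟩ := h2
  exact ⟨T ∪ T', union_subset hT hT', hTc.union hTc', hTn.union ⟨q, hq, hq'⟩ hTn',
    Or.inl hp, Or.inr hz⟩

theorem Conn.symm {S : Set (ℝ × ℝ)} {p q : ℝ × ℝ} (h1 : Conn S p q) : Conn S q p := by
  obtain ⟨T, hT, hTc, hTn, hp, hq⟩ := h1
  exact ⟨T, hT, hTc, hTn, hq, hp⟩

theorem conn_vert {S : Set (ℝ × ℝ)} {x t t' : ℝ} (h : ∀ s ∈ uIcc t t', (x, s) ∈ S) :
    Conn S (x, t) (x, t') := by
  refine ⟨{x} ×ˢ uIcc t t', ?_, isCompact_singleton.prod isCompact_uIcc,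
    isConnected_singleton.prod ⟨nonempty_uIcc, isPreconnected_uIcc⟩,
    ⟨rfl, left_mem_uIcc⟩, ⟨rfl, right_mem_uIcc⟩⟩
  rintro ⟨y, s⟩ ⟨hy, hs⟩
  rw [mem_singleton_iff] at hy
  simp only at hy
  rw [hy]
  exact h s hs

theorem conn_horiz {S : Set (ℝ × ℝ)} {x x' t : ℝ} (h : ∀ y ∈ uIcc x x', (y, t) ∈ S) :
    Conn S (x, t) (x', t) := by
  refine ⟨uIcc x x' ×ˢ {t}, ?_, isCompact_uIcc.prod isCompact_singleton,
    IsConnected.prod ⟨nonempty_uIcc, isPreconnected_uIcc⟩ isConnected_singleton,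
    ⟨left_mem_uIcc, rfl⟩, ⟨right_mem_uIcc, rfl⟩⟩
  rintro ⟨y, s⟩ ⟨hy, hs⟩
  rw [mem_singleton_iff] at hs
  simp only at hs
  rw [hs]
  exact h y hy

theorem Xe_up {w x t t' : ℝ} (h : (x, t) ∈ Xe w) (htt : t ≤ t') : (x, t') ∈ Xe w := by
  have h1 : max t 0 ≤ max t' 0 := max_le_max htt le_rfl
  have h2 : |x| < w + max t 0 := h
  show |x| < w + max t' 0
  linarith

theorem Xe_horiz {w x x' t : ℝ} (h : (x, t) ∈ Xe w) (h' : (x', t) ∈ Xe w) :
    ∀ y ∈ uIcc x x', (y, t) ∈ Xe w := by
  intro y hy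
  have h1 : |x| < w + max t 0 := h
  have h2 : |x'| < w + max t 0 := h'
  show |y| < w + max t 0
  rw [abs_lt] at *
  rcases le_total x x' with h3 | h3
  · rw [uIcc_of_le h3] at hy
    constructor <;> linarith [hy.1, hy.2]
  · rw [uIcc_of_ge h3] at hy
    constructor <;> linarith [hy.1, hy.2]

theorem abs_horiz {x x' y c P : ℝ} (h : |c - x| ≤ P) (h' : |c - x'| ≤ P) (hy : y ∈ uIcc x x') :
    |c - y| ≤ P := by
  rw [abs_le] at *
  rcases le_total x x' with h3 | h3
  · rw [uIcc_of_le h3] at hy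
    constructor <;> linarith [hy.1, hy.2]
  · rw [uIcc_of_ge h3] at hy
    constructor <;> linarith [hy.1, hy.2]

/-- the level of the hub -/
noncomputable def hub (w a P : ℝ) : ℝ :=
  open Classical in if 2 * P ≤ w then a + 2 * P else max a 0 + 2 * P

section
variable {w P r : ℝ} {a p : ℝ × ℝ}

theorem le_hub (hP : 0 < P) : a.2 ≤ hub w a.2 P := by
  unfold hub
  split_ifs
  · linarith
  · have := le_max_left a.2 0
    linarith

theorem p_le_hub (hP : 0 < P) (hp : Dm w a p ≤ P) : p.2 ≤ hub w a.2 P := by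
  rw [Dm_le] at hp
  unfold hub
  split_ifs with h
  · have h3 : min w |a.2 - p.2| ≤ P := hp.2.2
    rcases min_le_iff.1 h3 with h4 | h4
    · linarith
    · rw [abs_le] at h4
      linarith [h4.1]
  · have h3 := hp.2.1
    rw [abs_le] at h3
    have := le_max_left p.2 0
    linarith [h3.1]

/-- upper bound on vertical segments between `p` and the hub -/
theorem ub (hw : 0 < w) (hP : 0 < P) (hp : Dm w a p ≤ P) {x t : ℝ} (hx : |a.1 - x| ≤ P)
    (h1 : p.2 ≤ t) (h2 : t ≤ hub w a.2 P) : Dm w a (x, t) ≤ 2 * P := by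
  have hp' := Dm_le.1 hp
  have hmono1 : max p.2 0 ≤ max t 0 := max_le_max h1 le_rfl
  rw [Dm_le]
  refine ⟨by linarith, ?_, ?_⟩
  · have h3 := hp'.2.1
    rw [abs_le] at h3 ⊢
    simp only
    unfold hub at h2
    split_ifs at h2 with h
    · -- `t ≤ a + 2P`
      have h4 : max t 0 ≤ max a.2 0 + 2 * P := by
        apply max_le
        · have := le_max_left a.2 0
          linarith
        · have := le_max_right a.2 0
          linarith
      constructor <;> linarith [h3.1, h3.2]
    · have h4 : max t 0 ≤ max a.2 0 + 2 * P := by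
        apply max_le h2
        have := le_max_right a.2 0
        linarith
      constructor <;> linarith [h3.1, h3.2]
  · simp only
    rcases le_or_gt (2 * P) w with h | h
    · have h3 : min w |a.2 - p.2| ≤ P := hp'.2.2
      have h4 : |a.2 - p.2| ≤ P := by
        rcases min_le_iff.1 h3 with h4 | h4
        · linarith
        · exact h4
      unfold hub at h2
      rw [if_pos h] at h2
      refine (min_le_right _ _).trans ?_
      rw [abs_le] at h4 ⊢
      constructor <;> linarith [h4.1, h4.2]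
    · exact (min_le_left _ _).trans h.le

theorem to_hub (hw : 0 < w) (hr : 0 < r) (ha : a ∈ Xe w) (hp : p ∈ Xe w)
    (hrp : r ≤ Dm w a p) (hpP : Dm w a p ≤ P) :
    ∃ x, |a.1 - x| ≤ P ∧ (x, hub w a.2 P) ∈ Xe w ∧
      Conn {z | z ∈ Xe w ∧ r / 2 ≤ Dm w a z ∧ Dm w a z ≤ 2 * P} p (x, hub w a.2 P) := by
  have hP : 0 < P := by linarith
  have hp' := Dm_le.1 hpP
  have hph := p_le_hub hP hpP
  have hah : a.2 ≤ hub w a.2 P := le_hub hP
  obtain ⟨p1, p2⟩ := p
  simp only at hp' hph
  by_cases hcase : r / 2 ≤ |a.1 - p1| ∨ a.2 ≤ p2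
  · refine ⟨p1, hp'.1, Xe_up hp hph, conn_vert fun s hs => ?_⟩
    rw [uIcc_of_le hph] at hs
    refine ⟨Xe_up hp hs.1, ?_, ub hw hP hpP hp'.1 hs.1 hs.2⟩
    rcases hcase with h1 | h1
    · exact le_Dm.2 (Or.inl h1)
    · rw [le_Dm] at hrp ⊢
      simp only at hrp ⊢
      rcases hrp with h2 | h2 | h2
      · left; linarith
      · right; left
        have h3 : max a.2 0 ≤ max p2 0 := max_le_max h1 le_rfl
        have h4 : max p2 0 ≤ max s 0 := max_le_max hs.1 le_rfl
        rw [abs_sub_comm, abs_of_nonneg (by linarith)] at h2 ⊢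
        linarith
      · right; right
        rw [le_min_iff] at h2 ⊢
        refine ⟨by linarith, ?_⟩
        have h3 := h2.2
        rw [abs_sub_comm, abs_of_nonneg (by linarith)] at h3
        rw [abs_sub_comm, abs_of_nonneg (by linarith [hs.1])]
        linarith [hs.1]
  · push Not at hcase
    obtain ⟨hc1, hc2⟩ := hcase
    -- vertical separation
    have hV : r ≤ max a.2 0 - max p2 0 ∨ (r ≤ w ∧ r ≤ a.2 - p2) := by
      rw [le_Dm] at hrp
      simp only at hrp
      rcases hrp with h2 | h2 | h2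
      · linarith
      · left
        have h3 : max p2 0 ≤ max a.2 0 := max_le_max hc2.le le_rfl
        rwa [abs_of_nonneg (by linarith)] at h2
      · right
        rw [le_min_iff, abs_of_pos (by linarith : 0 < a.2 - p2)] at h2
        exact h2
    have hsep : r ≤ a.2 - p2 := by
      rcases hV with h | h
      · have h3 : max a.2 0 ≤ max p2 0 + (a.2 - p2) := by
          apply max_le
          · have := le_max_left p2 0
            linarith
          · have := le_max_right p2 0
            linarith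
        linarith
      · exact h.2
    set t := a.2 - r / 2 with ht
    have hpt : p2 ≤ t := by linarith
    have hta : t ≤ a.2 := by linarith
    -- alternatives
    have halt : r ≤ w ∨ r ≤ a.2 := by
      rcases hV with h | h
      · rcases le_total a.2 0 with h4 | h4
        · rw [max_eq_right h4] at h
          have := le_max_right p2 0
          linarith
        · rw [max_eq_left h4] at h
          have := le_max_right p2 0
          right; linarith
      · exact Or.inl h.1
    have hlow : ∀ s ≤ t, ∀ x : ℝ, r / 2 ≤ Dm w a (x, s) := by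
      intro s hs x
      rw [le_Dm]
      simp only
      rcases halt with h | h
      · right; right
        rw [le_min_iff, abs_of_pos (by linarith : 0 < a.2 - s)]
        constructor <;> linarith
      · right; left
        rw [max_eq_left (by linarith : 0 ≤ a.2)]
        have : max s 0 ≤ t := max_le hs (by linarith)
        rw [abs_of_nonneg (by linarith)]
        linarith
    have hwt : r / 2 < w + max t 0 := by
      rcases halt with h | h
      · have := le_max_right t 0
        linarith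
      · have := le_max_left t 0
        linarith
    have hplus : max a.2 0 - r / 2 ≤ max t 0 := by
      rcases le_total a.2 0 with h4 | h4
      · rw [max_eq_right h4]
        have := le_max_right t 0
        linarith
      · rw [max_eq_left h4]
        exact le_max_left t 0
    have ha' : |a.1| < w + max a.2 0 := ha
    obtain ⟨x, hx1, hx2⟩ : ∃ x, |a.1 - x| = r / 2 ∧ (x, t) ∈ Xe w := by
      rw [abs_lt] at ha'
      rcases le_total 0 a.1 with h | h
      · refine ⟨a.1 - r / 2, ?_, ?_⟩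
        · rw [show a.1 - (a.1 - r / 2) = r / 2 by ring, abs_of_pos (by linarith)]
        · show |a.1 - r / 2| < w + max t 0
          rw [abs_lt]
          constructor <;> linarith [ha'.1, ha'.2]
      · refine ⟨a.1 + r / 2, ?_, ?_⟩
        · rw [show a.1 - (a.1 + r / 2) = -(r / 2) by ring, abs_neg, abs_of_pos (by linarith)]
        · show |a.1 + r / 2| < w + max t 0
          rw [abs_lt]
          constructor <;> linarith [ha'.1, ha'.2]
    have hxP : |a.1 - x| ≤ P := by rw [hx1]; linarith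
    refine ⟨x, hxP, Xe_up hx2 (hta.trans hah), ?_⟩
    -- first segment
    have s1 : Conn {z | z ∈ Xe w ∧ r / 2 ≤ Dm w a z ∧ Dm w a z ≤ 2 * P} (p1, p2) (p1, t) := by
      refine conn_vert fun s hs => ?_
      rw [uIcc_of_le hpt] at hs
      exact ⟨Xe_up hp hs.1, hlow s hs.2 _,
        ub hw hP hpP hp'.1 hs.1 (hs.2.trans (hta.trans hah))⟩
    have s2 : Conn {z | z ∈ Xe w ∧ r / 2 ≤ Dm w a z ∧ Dm w a z ≤ 2 * P} (p1, t) (x, t) := by
      refine conn_horiz fun y hy => ?_
      exact ⟨Xe_horiz (Xe_up hp hpt) hx2 y hy, hlow t le_rfl _,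
        ub hw hP hpP (abs_horiz hp'.1 hxP hy) hpt (hta.trans hah)⟩
    have s3 : Conn {z | z ∈ Xe w ∧ r / 2 ≤ Dm w a z ∧ Dm w a z ≤ 2 * P} (x, t)
        (x, hub w a.2 P) := by
      refine conn_vert fun s hs => ?_
      rw [uIcc_of_le (hta.trans hah)] at hs
      exact ⟨Xe_up hx2 hs.1, le_Dm.2 (Or.inl hx1.ge),
        ub hw hP hpP hxP (hpt.trans hs.1) hs.2⟩
    exact (s1.trans s2).trans s3

theorem conn_annulus (hw : 0 < w) (hr : 0 < r) (ha : a ∈ Xe w) {p q : ℝ × ℝ} (hp : p ∈ Xe w)
    (hq : q ∈ Xe w) (hrp : r ≤ Dm w a p) (hpP : Dm w a p ≤ P) (hrq : r ≤ Dm w a q)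
    (hqP : Dm w a q ≤ P) :
    Conn {z | z ∈ Xe w ∧ r / 2 ≤ Dm w a z ∧ Dm w a z ≤ 2 * P} p q := by
  have hP : 0 < P := by linarith
  obtain ⟨x, hx1, hx2, hx3⟩ := to_hub hw hr ha hp hrp hpP
  obtain ⟨y, hy1, hy2, hy3⟩ := to_hub hw hr ha hq hrq hqP
  refine hx3.trans (Conn.trans ?_ hy3.symm)
  refine conn_horiz fun z hz => ⟨Xe_horiz hx2 hy2 z hz, ?_,
    ub hw hP hpP (abs_horiz hx1 hy1 hz) (p_le_hub hP hpP) le_rfl⟩
  rw [le_Dm]
  simp only
  unfold hub
  split_ifs with h
  · right; right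
    rw [le_min_iff, show a.2 - (a.2 + 2 * P) = -(2 * P) by ring, abs_neg,
      abs_of_pos (by linarith)]
    constructor <;> linarith
  · right; left
    have h3 : max (max a.2 0 + 2 * P) 0 = max a.2 0 + 2 * P := by
      apply max_eq_left
      have := le_max_right a.2 0
      linarith
    rw [h3, show max a.2 0 - (max a.2 0 + 2 * P) = -(2 * P) by ring, abs_neg,
      abs_of_pos (by linarith)]
    linarith

end

end Q93.AC
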