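import Mathlib
import Pool.Agent.Q93.AC.Plane
import Pool.Agent.Q93.AC.Defs

namespace Q93.AC

open Set Topology

theorem min_add {c x y z : ℝ} (hc : 0 ≤ c) (hy : 0 ≤ y) (hz : 0 ≤ z) (h : x ≤ y + z) :
    min c x ≤ min c y + min c z := by
  rcases le_total c y with h1 | h1
  · rw [min_eq_left h1]
    have := le_min hc hz
    have := min_le_left c x
    linarith
  · rcases le_total c z with h2 | h2
    · rw [min_eq_left h2]
      have := le_min hc hy
      have := min_le_left c x
      linarith
    · rw [min_eq_right h1, min_eq_right h2]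
      exact (min_le_right _ _).trans h

theorem Dm_nonneg {w : ℝ} (_ : 0 < w) (p q : ℝ × ℝ) : 0 ≤ Dm w p q :=
  le_Dm.2 (Or.inl (abs_nonneg _))

theorem Dm_comm (w : ℝ) (p q : ℝ × ℝ) : Dm w p q = Dm w q p := by
  unfold Dm
  rw [abs_sub_comm, abs_sub_comm (max p.2 0), abs_sub_comm p.2]

theorem Dm_triangle {w : ℝ} (hw : 0 < w) (p q z : ℝ × ℝ) :
    Dm w p z ≤ Dm w p q + Dm w q z := by
  have h1 := Dm_le.1 (le_refl (Dm w p q))
  have h2 := Dm_le.1 (le_refl (Dm w q z))
  rw [Dm_le]
  refine ⟨(abs_sub_le _ q.1 _).trans (add_le_add h1.1 h2.1),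
    (abs_sub_le _ (max q.2 0) _).trans (add_le_add h1.2.1 h2.2.1), ?_⟩
  exact (min_add hw.le (abs_nonneg _) (abs_nonneg _) (abs_sub_le _ q.2 _)).trans
    (add_le_add h1.2.2 h2.2.2)

theorem Dm_le_dist {w : ℝ} (p q : ℝ × ℝ) : Dm w p q ≤ dist p q := by
  rw [Dm_le, Prod.dist_eq]
  refine ⟨le_max_left _ _, ?_, (min_le_right _ _).trans (le_max_right _ _)⟩
  refine le_trans ?_ (le_max_right _ _)
  rw [Real.dist_eq]
  have := abs_max_sub_max_le_abs p.2 q.2 0
  exact this

theorem dist_le_Dm {w : ℝ} {p q : ℝ × ℝ} (h : Dm w p q < w) : dist p q ≤ Dm w p q := by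
  have h1 := Dm_le.1 (le_refl (Dm w p q))
  rw [Prod.dist_eq, Real.dist_eq, Real.dist_eq]
  refine max_le h1.1 ?_
  rcases min_le_iff.1 h1.2.2 with h2 | h2
  · linarith
  · exact h2

/-- the closed funnel with the truncated metric -/
def Fun (w : ℝ) : Type := {z : ℝ × ℝ // |z.1| ≤ w + max z.2 0}

variable {w : ℝ}

/-- the coordinates of a point -/
def co (z : Fun w) : ℝ × ℝ := z.1

theorem co_injective : Function.Injective (co (w := w)) := Subtype.val_injective

noncomputable def funMetric (w : ℝ) (hw : 0 < w) : MetricSpace (Fun w) where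
  dist p q := min 1 (Dm w (co p) (co q))
  dist_self p := by
    have : Dm w (co p) (co p) = 0 := by
      apply le_antisymm _ (Dm_nonneg hw _ _)
      rw [Dm_le]
      simp [hw.le]
    simp [this]
  dist_comm p q := by rw [Dm_comm]
  dist_triangle p q z :=
    min_add zero_le_one (Dm_nonneg hw _ _) (Dm_nonneg hw _ _) (Dm_triangle hw _ _ _)
  eq_of_dist_eq_zero := by
    intro p q h
    have h1 : Dm w (co p) (co q) ≤ 0 := by
      rcases min_le_iff.1 h.le with h2 | h2
      · linarith
      · exact h2
    have h2 := dist_le_Dm (lt_of_le_of_lt h1 hw)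
    exact co_injective (dist_le_zero.1 (h2.trans h1))

section
variable [hwf : Fact (0 < w)]

noncomputable instance : MetricSpace (Fun w) := funMetric w hwf.out

theorem dist_def (p q : Fun w) : dist p q = min 1 (Dm w (co p) (co q)) := rfl

theorem co_uniform : IsUniformEmbedding (co (w := w)) := by
  have hw : 0 < w := hwf.out
  rw [Metric.isUniformEmbedding_iff]
  refine ⟨co_injective, ?_, ?_⟩
  · rw [Metric.uniformContinuous_iff]
    intro ε hε
    refine ⟨min ε (min w 1), lt_min hε (lt_min hw one_pos), fun p q hpq => ?_⟩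
    rw [dist_def, lt_min_iff, lt_min_iff] at hpq
    obtain ⟨h1, h2, h3⟩ := hpq
    have h4 : Dm w (co p) (co q) < 1 := by
      rcases min_lt_iff.1 h3 with h | h
      · exact absurd h (lt_irrefl _)
      · exact h
    rw [min_eq_right h4.le] at h1 h2
    exact (dist_le_Dm h2).trans_lt h1
  · intro δ hδ
    refine ⟨δ, hδ, fun {p q} hpq => ?_⟩
    rw [dist_def]
    exact ((min_le_right _ _).trans (Dm_le_dist _ _)).trans_lt hpq

theorem range_co : range (co (w := w)) = {z | |z.1| ≤ w + max z.2 0} := by
  ext z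
  constructor
  · rintro ⟨p, rfl⟩
    exact p.2
  · intro h
    exact ⟨⟨z, h⟩, rfl⟩

theorem isClosed_range_co : IsClosed (range (co (w := w))) := by
  rw [range_co]
  exact isClosed_le (by fun_prop) (by fun_prop)

instance : CompleteSpace (Fun w) := by
  rw [completeSpace_iff_isComplete_range (co_uniform (w := w)).isUniformInducing]
  exact isClosed_range_co.isComplete

theorem co_closedEmb : IsClosedEmbedding (co (w := w)) :=
  ⟨co_uniform.isEmbedding, isClosed_range_co⟩

/-- the space `X` as a subset of its completion -/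
def XX (w : ℝ) : Set (Fun w) := co ⁻¹' (Xe w)

theorem isOpen_Xe : IsOpen (Xe w) := isOpen_lt (by fun_prop) (by fun_prop)

theorem Xe_subset : Xe w ⊆ range (co (w := w)) := by
  rw [range_co]
  intro z hz
  exact (le_of_lt hz : |z.1| ≤ w + max z.2 0)

theorem isOpen_XX : IsOpen (XX w) := isOpen_Xe.preimage co_closedEmb.continuous

theorem allc : ALLC 2 (XX w) := by
  have hw : 0 < w := hwf.out
  intro a ha r R hr hrR p hp q hq h1 h2 h3 h4
  rw [dist_def, le_min_iff] at h1 h3
  rw [dist_def] at h2 h4
  set P := max (Dm w (co a) (co p)) (Dm w (co a) (co q)) with hP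
  obtain ⟨T, hT, hTc, hTn, hpT, hqT⟩ := conn_annulus (P := P) hw hr ha hp hq h1.2
    (le_max_left _ _) h3.2 (le_max_right _ _)
  have hTr : T ⊆ range (co (w := w)) := fun z hz => Xe_subset (hT hz).1
  have himg : co '' (co (w := w) ⁻¹' T) = T := image_preimage_eq_of_subset hTr
  refine ⟨co ⁻¹' T, fun z hz => (hT hz).1, co_closedEmb.isCompact_preimage hTc, ?_, hpT, hqT,
    fun z hz => ⟨?_, ?_⟩⟩
  · refine ⟨⟨p, hpT⟩, ?_⟩
    rw [← co_closedEmb.isEmbedding.isInducing.isPreconnected_image, himg]
    exact hTn.isPreconnected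
  · rw [dist_def, le_min_iff]
    exact ⟨by linarith [h1.1], (hT hz).2.1⟩
  · rw [dist_def]
    rcases le_or_gt 1 R with h5 | h5
    · exact (min_le_left _ _).trans (by linarith)
    · have e1 : Dm w (co a) (co p) ≤ R := by
        rcases min_le_iff.1 h2 with h | h
        · linarith
        · exact h
      have e2 : Dm w (co a) (co q) ≤ R := by
        rcases min_le_iff.1 h4 with h | h
        · linarith
        · exact h
      have e3 : P ≤ R := max_le e1 e2
      exact (min_le_right _ _).trans ((hT hz).2.2.trans (by linarith))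

/-- constructor -/
def mkF (w : ℝ) (z : ℝ × ℝ) (h : |z.1| ≤ w + max z.2 0) : Fun w := ⟨z, h⟩

theorem dense_XX : Dense (XX w) := by
  have hw : 0 < w := hwf.out
  intro z
  rw [Metric.mem_closure_iff]
  intro ε hε
  -- shrink the first coordinate
  set x := (co z).1 with hx
  set t := (co z).2 with ht
  have hz' : |x| ≤ w + max t 0 := z.2
  have hpos : 0 < w + max t 0 := by
    have := le_max_right t 0
    linarith
  set η := min (1 / 2) (ε / (2 * (w + max t 0))) with hη
  have hη0 : 0 < η := lt_min (by norm_num) (by positivity)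
  have hη1 : η ≤ 1 / 2 := min_le_left _ _
  have hmem : |(1 - η) * x| < w + max t 0 := by
    rw [abs_mul, abs_of_pos (by linarith : 0 < 1 - η)]
    calc (1 - η) * |x| ≤ (1 - η) * (w + max t 0) :=
          mul_le_mul_of_nonneg_left hz' (by linarith)
      _ < w + max t 0 := by nlinarith
  refine ⟨mkF w ((1 - η) * x, t) hmem.le, hmem, ?_⟩
  rw [dist_def]
  refine lt_of_le_of_lt (min_le_right _ _) (lt_of_le_of_lt (Dm_le_dist _ _) ?_)
  show dist (co z) ((1 - η) * x, t) < ε
  rw [Prod.dist_eq]
  show max (dist x ((1 - η) * x)) (dist t t) < ε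
  rw [dist_self, Real.dist_eq]
  rw [show x - (1 - η) * x = η * x by ring, abs_mul, abs_of_pos hη0]
  apply max_lt _ hε
  have h1 : η * |x| ≤ η * (w + max t 0) := mul_le_mul_of_nonneg_left hz' hη0.le
  have h2 : η * (w + max t 0) ≤ ε / 2 := by
    have h3 : η ≤ ε / (2 * (w + max t 0)) := min_le_right _ _
    rw [le_div_iff₀ (by positivity)] at h3
    linarith
  linarith

theorem isConnected_Xe : IsConnected (Xe w) := by
  have hw : 0 < w := hwf.out
  -- star-like: go to the axis and along the axis
  have h0 : ((0 : ℝ), (0 : ℝ)) ∈ Xe w := by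
    show |(0:ℝ)| < w + max 0 0
    simpa using hw
  refine ⟨⟨_, h0⟩, isPreconnected_of_forall (0, 0) fun z hz => ?_⟩
  obtain ⟨x, t⟩ := z
  have hx0 : ∀ s : ℝ, ((0 : ℝ), s) ∈ Xe w := by
    intro s
    show |(0:ℝ)| < w + max s 0
    have := le_max_right s 0
    rw [abs_zero]
    linarith
  have c1 : Conn (Xe w) (0, 0) (0, t) := conn_vert fun s _ => hx0 s
  have c2 : Conn (Xe w) (0, t) (x, t) := conn_horiz (Xe_horiz (hx0 t) hz)
  obtain ⟨T, hT, _, hTn, h3, h4⟩ := c1.trans c2
  exact ⟨T, hT, h3, h4, hTn.isPreconnected⟩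

theorem planar : PlanarDomain (XX w) := by
  -- open embedding of the plane into the sphere
  let e1 : ℝ × ℝ ≃ₜ EuclideanSpace ℝ (Fin 2) :=
    (Homeomorph.finTwoArrow (X := ℝ)).symm.trans
      (EuclideanSpace.equiv (Fin 2) ℝ).symm.toHomeomorph
  have hf : Fact (Module.finrank ℝ (EuclideanSpace ℝ (Fin 3)) = 2 + 1) := ⟨by simp⟩
  let v : Metric.sphere (0 : EuclideanSpace ℝ (Fin 3)) 1 :=
    ⟨EuclideanSpace.single 0 1, by simp⟩
  let st := stereographic' 2 v
  have hst : IsOpenEmbedding st.symm := by
    apply st.symm.isOpenEmbedding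
    simp [st]
  have hemb : IsEmbedding (fun z : XX w => st.symm (e1 (co z.1))) :=
    hst.isEmbedding.comp (e1.isEmbedding.comp (co_closedEmb.isEmbedding.comp
      IsEmbedding.subtypeVal))
  have hrange : range (fun z : XX w => st.symm (e1 (co z.1))) =
      (fun z => st.symm (e1 z)) '' (Xe w) := by
    ext y
    constructor
    · rintro ⟨z, rfl⟩
      exact ⟨co z.1, z.2, rfl⟩
    · rintro ⟨z, hz, rfl⟩
      obtain ⟨p, hp⟩ := Xe_subset hz
      refine ⟨⟨p, ?_⟩, ?_⟩
      · show co p ∈ Xe w
        rw [hp]; exact hz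
      · simp only
        rw [hp]
  have hcomp : IsOpenEmbedding (fun z => st.symm (e1 z)) := hst.comp e1.isOpenEmbedding
  refine ⟨range (fun z : XX w => st.symm (e1 (co z.1))), ?_, ?_, ⟨hemb.toHomeomorph⟩⟩
  · rw [hrange]
    exact hcomp.isOpenMap _ isOpen_Xe
  · rw [hrange]
    exact isConnected_Xe.image _ hcomp.continuous.continuousOn

/-- right boundary curve -/
noncomputable def bR (w t : ℝ) (hw : 0 < w) : Fun w :=
  ⟨(w + max t 0, t), by
    have := le_max_right t 0
    show |w + max t 0| ≤ w + max t 0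
    rw [abs_of_pos (by linarith)]⟩

noncomputable def bL (w t : ℝ) (hw : 0 < w) : Fun w :=
  ⟨(-(w + max t 0), t), by
    have := le_max_right t 0
    show |-(w + max t 0)| ≤ w + max t 0
    rw [abs_neg, abs_of_pos (by linarith)]⟩

theorem co_bR (t : ℝ) : co (bR w t hwf.out) = (w + max t 0, t) := rfl
theorem co_bL (t : ℝ) : co (bL w t hwf.out) = (-(w + max t 0), t) := rfl

theorem cont_bR : Continuous (fun t => bR w t hwf.out) := by
  rw [co_closedEmb.isEmbedding.continuous_iff]
  show Continuous fun t : ℝ => ((w + max t 0, t) : ℝ × ℝ)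
  fun_prop

theorem cont_bL : Continuous (fun t => bL w t hwf.out) := by
  rw [co_closedEmb.isEmbedding.continuous_iff]
  show Continuous fun t : ℝ => ((-(w + max t 0), t) : ℝ × ℝ)
  fun_prop

theorem compl_XX (z : Fun w) : z ∈ (XX w)ᶜ ↔
    (z ∈ range (fun t => bL w t hwf.out)) ∨ z ∈ range (fun t => bR w t hwf.out) := by
  have hw : 0 < w := hwf.out
  have hco : z ∈ (XX w)ᶜ ↔ |(co z).1| = w + max (co z).2 0 := by
    constructor
    · intro h
      exact le_antisymm z.2 (not_lt.1 h)
    · intro h h'
      have : |(co z).1| < w + max (co z).2 0 := h'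
      linarith
  rw [hco]
  constructor
  · intro h
    rcases le_total 0 (co z).1 with h1 | h1
    · right
      rw [abs_of_nonneg h1] at h
      refine ⟨(co z).2, co_injective ?_⟩
      rw [co_bR, ← h]
    · left
      rw [abs_of_nonpos h1] at h
      refine ⟨(co z).2, co_injective ?_⟩
      rw [co_bL, ← h, neg_neg]
  · rintro (⟨t, rfl⟩ | ⟨t, rfl⟩)
    · simp only [co_bL, abs_neg]
      have := le_max_right t 0
      rw [abs_of_pos (by linarith)]
    · simp only [co_bR]
      have := le_max_right t 0
      rw [abs_of_pos (by linarith)]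

theorem comp_R : range (fun t => bR w t hwf.out) = connectedComponentIn (XX w)ᶜ
    (bR w 0 hwf.out) := by
  have hw : 0 < w := hwf.out
  apply Subset.antisymm
  · apply IsPreconnected.subset_connectedComponentIn
    · exact isPreconnected_range cont_bR
    · exact ⟨0, rfl⟩
    · intro z hz
      exact (compl_XX z).2 (Or.inr hz)
  · have hsub := connectedComponentIn_subset (XX w)ᶜ (bR w 0 hwf.out)
    have hpre : IsPreconnected (connectedComponentIn (XX w)ᶜ (bR w 0 hwf.out)) :=
      isPreconnected_connectedComponentIn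
    have hmem : bR w 0 hwf.out ∈ connectedComponentIn (XX w)ᶜ (bR w 0 hwf.out) :=
      mem_connectedComponentIn ((compl_XX _).2 (Or.inr ⟨0, rfl⟩))
    have hc : Continuous fun z : Fun w => (co z).1 := continuous_fst.comp co_closedEmb.continuous
    have hu : IsOpen {z : Fun w | 0 < (co z).1} := isOpen_lt continuous_const hc
    have hv : IsOpen {z : Fun w | (co z).1 < 0} := isOpen_lt hc continuous_const
    have h1 := hpre.subset_left_of_subset_union hu hv
      (by
        rw [Set.disjoint_left]
        intro z h1 h2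
        have h1' : 0 < (co z).1 := h1
        have h2' : (co z).1 < 0 := h2
        linarith)
      (by
        intro z hz
        rcases (compl_XX z).1 (hsub hz) with ⟨t, rfl⟩ | ⟨t, rfl⟩
        · right
          show -(w + max t 0) < 0
          have := le_max_right t 0
          linarith
        · left
          show 0 < w + max t 0
          have := le_max_right t 0
          linarith)
      ⟨_, hmem, by
        show 0 < w + max 0 0
        simpa using hw⟩
    intro z hz
    rcases (compl_XX z).1 (hsub hz) with ⟨t, rfl⟩ | h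
    · exfalso
      have : 0 < -(w + max t 0) := h1 hz
      have := le_max_right t 0
      linarith
    · exact h

theorem comp_L : range (fun t => bL w t hwf.out) = connectedComponentIn (XX w)ᶜ
    (bL w 0 hwf.out) := by
  have hw : 0 < w := hwf.out
  apply Subset.antisymm
  · apply IsPreconnected.subset_connectedComponentIn
    · exact isPreconnected_range cont_bL
    · exact ⟨0, rfl⟩
    · intro z hz
      exact (compl_XX z).2 (Or.inl hz)
  · have hsub := connectedComponentIn_subset (XX w)ᶜ (bL w 0 hwf.out)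
    have hpre : IsPreconnected (connectedComponentIn (XX w)ᶜ (bL w 0 hwf.out)) :=
      isPreconnected_connectedComponentIn
    have hmem : bL w 0 hwf.out ∈ connectedComponentIn (XX w)ᶜ (bL w 0 hwf.out) :=
      mem_connectedComponentIn ((compl_XX _).2 (Or.inl ⟨0, rfl⟩))
    have hc : Continuous fun z : Fun w => (co z).1 := continuous_fst.comp co_closedEmb.continuous
    have hu : IsOpen {z : Fun w | 0 < (co z).1} := isOpen_lt continuous_const hc
    have hv : IsOpen {z : Fun w | (co z).1 < 0} := isOpen_lt hc continuous_const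
    have h1 := hpre.subset_left_of_subset_union hv hu
      (by
        rw [Set.disjoint_left]
        intro z h1 h2
        have h1' : 0 < (co z).1 := h2
        have h2' : (co z).1 < 0 := h1
        linarith)
      (by
        intro z hz
        rcases (compl_XX z).1 (hsub hz) with ⟨t, rfl⟩ | ⟨t, rfl⟩
        · left
          show -(w + max t 0) < 0
          have := le_max_right t 0
          linarith
        · right
          show 0 < w + max t 0
          have := le_max_right t 0
          linarith)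
      ⟨_, hmem, by
        show -(w + max 0 0) < 0
        simpa using hw⟩
    intro z hz
    rcases (compl_XX z).1 (hsub hz) with h | ⟨t, rfl⟩
    · exact h
    · exfalso
      have : w + max t 0 < 0 := h1 hz
      have := le_max_right t 0
      linarith

theorem diam_le (E : Set (Fun w)) : Metric.diam E ≤ 1 :=
  Metric.diam_le_of_forall_dist_le zero_le_one fun _ _ _ _ => min_le_left _ _

theorem bdd (E : Set (Fun w)) : Bornology.IsBounded E :=
  Metric.isBounded_iff.2 ⟨1, fun _ _ _ _ => min_le_left _ _⟩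

theorem diam_R : Metric.diam (range (fun t => bR w t hwf.out)) = 1 := by
  apply le_antisymm (diam_le _)
  have h1 := Metric.dist_le_diam_of_mem (bdd (range (fun t => bR w t hwf.out)))
    ⟨0, rfl⟩ ⟨1, rfl⟩
  refine le_trans ?_ h1
  rw [dist_def, le_min_iff]
  refine ⟨le_rfl, le_Dm.2 (Or.inr (Or.inl ?_))⟩
  simp only [co_bR]
  norm_num

theorem diam_L : Metric.diam (range (fun t => bL w t hwf.out)) = 1 := by
  apply le_antisymm (diam_le _)
  have h1 := Metric.dist_le_diam_of_mem (bdd (range (fun t => bL w t hwf.out)))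
    ⟨0, rfl⟩ ⟨1, rfl⟩
  refine le_trans ?_ h1
  rw [dist_def, le_min_iff]
  refine ⟨le_rfl, le_Dm.2 (Or.inr (Or.inl ?_))⟩
  simp only [co_bL]
  norm_num

theorem relDist_le : relDist (range (fun t => bL w t hwf.out)) (range (fun t => bR w t hwf.out))
    ≤ 2 * w := by
  have hw : 0 < w := hwf.out
  unfold relDist
  rw [diam_L, diam_R, min_self, div_one]
  have h1 : dist (bL w 0 hwf.out) (bR w 0 hwf.out) ≤ 2 * w := by
    rw [dist_def]
    refine (min_le_right _ _).trans ?_
    rw [Dm_le]
    simp only [co_bL, co_bR, max_self, add_zero, sub_self, abs_zero]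
    refine ⟨?_, by linarith, ?_⟩
    · rw [abs_le]; constructor <;> linarith
    · exact (min_le_left _ _).trans (by linarith)
  refine le_trans (csInf_le ?_ ?_) h1
  · refine ⟨0, ?_⟩
    rintro t ⟨x, _, y, _, rfl⟩
    exact dist_nonneg
  · exact ⟨bL w 0 hwf.out, ⟨0, rfl⟩, bR w 0 hwf.out, ⟨0, rfl⟩, rfl⟩

theorem ne_LR : range (fun t => bL w t hwf.out) ≠ range (fun t => bR w t hwf.out) := by
  have hw : 0 < w := hwf.out
  intro h
  have h1 : bL w 0 hwf.out ∈ range (fun t => bR w t hwf.out) := by
    rw [← h]; exact ⟨0, rfl⟩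
  obtain ⟨t, ht⟩ := h1
  have h2 := congrArg (fun z => (co z).1) ht
  simp only [co_bL, co_bR] at h2
  have := le_max_right t 0
  have := le_max_right (0:ℝ) 0
  linarith

theorem nontrivial_R : (range (fun t => bR w t hwf.out)).Nontrivial := by
  refine ⟨_, ⟨0, rfl⟩, _, ⟨1, rfl⟩, fun h => ?_⟩
  have h2 := congrArg (fun z => (co z).2) h
  simp only [co_bR] at h2
  norm_num at h2

theorem nontrivial_L : (range (fun t => bL w t hwf.out)).Nontrivial := by
  refine ⟨_, ⟨0, rfl⟩, _, ⟨1, rfl⟩, fun h => ?_⟩
  have h2 := congrArg (fun z => (co z).2) h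
  simp only [co_bL] at h2
  norm_num at h2

end

theorem exists_space {δ : ℝ} (hδ : 0 < δ) : ∃ (Y : Type) (_ : MetricSpace Y) (X : Set Y),
    CompleteSpace Y ∧ Dense X ∧ PlanarDomain X ∧ ALLC 2 X ∧
    ∃ E F : Set Y, NontrivialComponent X E ∧ NontrivialComponent X F ∧ E ≠ F ∧
      Metric.diam E = 1 ∧ Metric.diam F = 1 ∧ relDist E F < δ := by
  have hf : Fact (0 < δ / 4) := ⟨by linarith⟩
  refine ⟨Fun (δ / 4), inferInstance, XX (δ / 4), inferInstance, dense_XX, planar, allc,
    range (fun t => bL (δ / 4) t hf.out), range (fun t => bR (δ / 4) t hf.out),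
    ⟨nontrivial_L, _, (compl_XX _).2 (Or.inl ⟨0, rfl⟩), comp_L⟩,
    ⟨nontrivial_R, _, (compl_XX _).2 (Or.inr ⟨0, rfl⟩), comp_R⟩, ne_LR, diam_L, diam_R, ?_⟩
  have := relDist_le (w := δ / 4)
  linarith

end Q93.AC
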